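import Pool.Agent.U534.ModInt
import Pool.Agent.U534.CountInt

/-!
# The modular Schanuel conjecture with derivatives above a set of integers of upper Banach density one

Let `j` be the modular invariant. If `z_1, …, z_n` are points of the upper half-plane for which the numbers
`t_i = j(z_i)` are integers, and `z_i` is not a CM point and no two of the points are equivalent under `GL_2^+(ℚ)`, the
modular Schanuel conjecture with derivatives predicts that the `3 n` numbers `z_i`, `j'(z_i)`, `j''(z_i)` are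
algebraically independent.

We construct ONE infinite set `𝒯 = T_0 ∪ T_1 ∪ ⋯` of integers for which this holds asymptotically for all finite subsets
and for all points above them. The set `T_j` contains all elements of a window `[a_j, b_j]` with the exception of a
proportion of at most `1 / (j + 1)` (so `𝒯` has upper Banach density one). More generally, let `A_0, A_1, …` be any
clustered sets of integers (arbitrarily thin sets are possible); then `T_j` contains all elements of `A_j ∩ [a_j, b_j]` with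
the exception of a proportion of at most `1 / (j + 1)`.

* Let `F` be any countable set of complex numbers, for instance the field generated by all algebraic numbers, `π` and the
  values `z`, `j'(z)`, `j''(z)` at all CM points `z`. There is such a set `𝒯` with the following property. For every `n` and
  every nonzero polynomial `P` in `3 n` variables with coefficients in `F`, of any degree, there is `l` such that `P` does not
  vanish at the `3 n` numbers `z_i`, `j'(z_i)`, `j''(z_i)` for all points `z_i` with `j(z_i) = t_i`, where `t_1, …, t_n` are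
  any distinct elements of `T_l ∪ T_(l + 1) ∪ ⋯`.
* Let `V_0 ⊆ V_1 ⊆ ⋯` be any finite dimensional `ℚ`-vector spaces of complex numbers and `δ_0 ≤ δ_1 ≤ ⋯` any integers
  (they may grow as fast as one likes). There is such a set `𝒯` such that for all `l`, for all choices of a point `z_t` with
  `j(z_t) = t` above every `t` in `𝒯`, the numbers `z_t`, `j'(z_t)`, `j''(z_t)`, `t ∈ T_l ∪ T_(l + 1) ∪ ⋯`, satisfy no
  nontrivial polynomial relation in any number of variables, of degree at most `δ_l` in each variable, with coefficients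
  in `K V_l`, `K` any number field of degree at most `δ_l`.

The library theorem `MP_f58a57_nt.DistinctWindows` (`Pool.Agent.Y120.K.winZ2`) treats `k` distinct integers of one short
window; here the relations involve integers of infinitely many windows of very different sizes, the numbers above the earlier
windows are constants for the later ones, and all possible choices of the (infinitely many) points above each integer are
treated at the same time.
-/

set_option autoImplicit false

namespace Pool.Agent.Results.MP_ede373_nt.AlmostFullWindows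

/-- the normalised Eisenstein series of weight `4` -/
noncomputable def E4 (τ : ℂ) : ℂ :=
  1 + 240 * ∑' m : ℕ, ((ArithmeticFunction.sigma 3 (m + 1) : ℕ) : ℂ) *
    Complex.exp (2 * (Real.pi : ℂ) * Complex.I * ((m : ℂ) + 1) * τ)

/-- the normalised Eisenstein series of weight `6` -/
noncomputable def E6 (τ : ℂ) : ℂ :=
  1 - 504 * ∑' m : ℕ, ((ArithmeticFunction.sigma 5 (m + 1) : ℕ) : ℂ) *
    Complex.exp (2 * (Real.pi : ℂ) * Complex.I * ((m : ℂ) + 1) * τ)

/-- the modular invariant `j = q⁻¹ + 744 + 196884 q + ⋯` -/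
noncomputable def J (τ : ℂ) : ℂ := 1728 * E4 τ ^ 3 / (E4 τ ^ 3 - E6 τ ^ 2)

/-- the numbers `z`, `j'(z)`, `j''(z)` -/
noncomputable def numbers (z : ℂ) : Fin 3 → ℂ := ![z, deriv J z, deriv (deriv J) z]

/-- `A` is clustered: for all `E`, `M`, `N` there is a window `[a, a + H]` of integers of absolute value at least
`(H + 2) ^ E + N` which contains more than `M` elements of `A`. -/
def Clustered (A : Set ℤ) : Prop :=
  ∀ E M N : ℕ, ∃ (a : ℤ) (H : ℕ), (∀ t ∈ Set.Icc a (a + H), ((H : ℤ) + 2) ^ E + N ≤ |t|) ∧ M < (A ∩ Set.Icc a (a + H)).ncard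

/-- The finite sets `T j` are disjoint, and `T j` contains all elements of `A j` in a window `[a, b]`, `|t| ≥ j` for all `t`
of the window, up to a proportion of at most `1 / (j + 1)`; it has at least `j` elements. -/
def AlmostFull (A : ℕ → Set ℤ) (T : ℕ → Finset ℤ) : Prop :=
  (∀ i j, i ≠ j → Disjoint (T i) (T j)) ∧ ∀ j : ℕ, ∃ a b : ℤ, (∀ t ∈ Set.Icc a b, (j : ℤ) ≤ |t|) ∧
    (T j : Set ℤ) ⊆ A j ∩ Set.Icc a b ∧ j ≤ (T j).card ∧
    (j + 1) * ((A j ∩ Set.Icc a b) \ T j).ncard ≤ (A j ∩ Set.Icc a b).ncard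

/-- `z` chooses points of the upper half-plane above the elements of the sets `T j`. -/
def Above (T : ℕ → Finset ℤ) (z : ℤ → ℂ) : Prop := ∀ j, ∀ t ∈ T j, 0 < (z t).im ∧ J (z t) = t

section proofs

lemma J_eq : J = Pool.Agent.TH21.MS.jj := by
  have h4 : E4 = Pool.Agent.TH21.MS.E4 := funext Pool.Agent.Y120.J.E4_same
  have h6 : E6 = Pool.Agent.TH21.MS.E6 := funext Pool.Agent.Y120.J.E6_same
  funext τ
  unfold J Pool.Agent.TH21.MS.jj
  rw [h4, h6]

lemma numbers_mem {t : ℤ} {z : ℂ} (h0 : 0 < z.im) (h : J z = t) : numbers z ∈ Pool.Agent.U534.Tens.Yt t := by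
  refine ⟨⟨z, h0⟩, ?_, ?_⟩
  · rw [← J_eq]
    exact h
  · show numbers z = Pool.Agent.Y120.J.jt z
    unfold numbers Pool.Agent.Y120.J.jt
    rw [J_eq]

/-- the integers are clustered -/
theorem clustered_univ : Clustered Set.univ := by
  intro E M N
  refine ⟨((M + 2) ^ E + N : ℕ), M, fun t ht => ?_, ?_⟩
  · obtain ⟨h1, -⟩ := ht
    push_cast at h1
    have h2 : (0 : ℤ) ≤ ((M : ℤ) + 2) ^ E := by positivity
    rw [abs_of_nonneg (by omega)]
    exact h1
  · rw [Set.univ_inter]
    have h1 : (Set.Icc (((M + 2) ^ E + N : ℕ) : ℤ) (((M + 2) ^ E + N : ℕ) + M)).ncard = M + 1 := by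
      rw [← Finset.coe_Icc, Set.ncard_coe_finset, Int.card_Icc]
      omega
    rw [h1]
    omega

theorem main (A : ℕ → Set ℤ) (hA : ∀ j, Clustered (A j)) (V : ℕ → Submodule ℚ ℂ) (hVf : ∀ j, Module.Finite ℚ (V j))
    (hV : Monotone V) (δ : ℕ → ℕ) (hδ : Monotone δ) :
    ∃ T : ℕ → Finset ℤ, AlmostFull A T ∧ ∀ y : ℤ → Fin 3 → ℂ, (∀ j, ∀ t ∈ T j, y t ∈ Pool.Agent.U534.Tens.Yt t) →
      ∀ (l : ℕ) (K : IntermediateField ℚ ℂ), FiniteDimensional ℚ K → Module.finrank ℚ K ≤ δ l →
      ∀ P : MvPolynomial (ℤ × Fin 3) ℂ, P ≠ 0 → (∀ v ∈ P.vars, ∃ j ≥ l, v.1 ∈ T j) →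
        (∀ v, P.degreeOf v ≤ δ l) → (∀ s, P.coeff s ∈ Submodule.span K (V l : Set ℂ)) →
        MvPolynomial.eval (fun v => y v.1 v.2) P ≠ 0 := by
  obtain ⟨a, b, T, h1, h2, h3⟩ := Pool.Agent.U534.Tens.modular (A := A) hA hVf hV hδ
  exact ⟨T, ⟨h2, fun j => ⟨a j, b j, h1 j⟩⟩, h3⟩

end proofs

/-- **Main result.** -/
theorem result :
    -- all integers are allowed
    Clustered Set.univ ∧
    ∀ A : ℕ → Set ℤ, (∀ j, Clustered (A j)) →
    -- all polynomials over a countable set of constants
    (∀ F : Set ℂ, F.Countable → ∃ T : ℕ → Finset ℤ, AlmostFull A T ∧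
      ∀ (n : ℕ) (P : MvPolynomial (Fin n × Fin 3) ℂ), P ≠ 0 → (∀ s, P.coeff s ∈ F) → ∃ l : ℕ,
        ∀ z : ℤ → ℂ, Above T z → ∀ t : Fin n → ℤ, Function.Injective t → (∀ i, ∃ j ≥ l, t i ∈ T j) →
          MvPolynomial.eval (fun v => numbers (z (t v.1)) v.2) P ≠ 0) ∧
    -- given degrees and constants
    ∀ V : ℕ → Submodule ℚ ℂ, (∀ j, Module.Finite ℚ (V j)) → Monotone V → ∀ δ : ℕ → ℕ, Monotone δ →
      ∃ T : ℕ → Finset ℤ, AlmostFull A T ∧ ∀ z : ℤ → ℂ, Above T z →
      ∀ (l : ℕ) (K : IntermediateField ℚ ℂ), FiniteDimensional ℚ K → Module.finrank ℚ K ≤ δ l →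
      ∀ P : MvPolynomial (ℤ × Fin 3) ℂ, P ≠ 0 → (∀ v ∈ P.vars, ∃ j ≥ l, v.1 ∈ T j) →
        (∀ v, P.degreeOf v ≤ δ l) → (∀ s, P.coeff s ∈ Submodule.span K (V l : Set ℂ)) →
        MvPolynomial.eval (fun v => numbers (z v.1) v.2) P ≠ 0 := by
  refine ⟨clustered_univ, fun A hA => ⟨fun F hF => ?_, fun V hVf hV δ hδ => ?_⟩⟩
  · obtain ⟨T, hT, h⟩ := Pool.Agent.U534.Tens.countable_form (Y := Pool.Agent.U534.Tens.Yt) (G := AlmostFull A)
      (fun V hVf hV δ hδ => main A hA V hVf hV δ hδ) F hF
    refine ⟨T, hT, fun n P hP hPc => ?_⟩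
    obtain ⟨l, hl⟩ := h n P hP hPc
    exact ⟨l, fun z hz t ht htT => hl (fun t => numbers (z t)) (fun j t ht => numbers_mem (hz j t ht).1 (hz j t ht).2) t ht htT⟩
  · obtain ⟨T, hT, h⟩ := main A hA V hVf hV δ hδ
    exact ⟨T, hT, fun z hz => h (fun t => numbers (z t)) fun j t ht => numbers_mem (hz j t ht).1 (hz j t ht).2⟩

end Pool.Agent.Results.MP_ede373_nt.AlmostFullWindows
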