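import Pool.Agent.U536.CF.TU
import Pool.Agent.Results.MP_ede373_nt.MultiplicativeValues

/-!
# The modular Schanuel conjecture with derivatives at integers with large common factors with the values of multiplicative functions

Let `F_1, ..., F_k` be positive multiplicative functions of at most polynomial growth such that `F_i p ≤ M p` for the
large primes `p`, with different values at different large primes; for example Euler's function or the sum of the
divisors. Let `b < 1` and `0 ≤ c < 2 b - 1`. Let `q` and `δ` be natural numbers and `x_1, …, x_q` any complex numbers. For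
all tuples `m` in `[1, N]^k` but `N^k exp (-(log N)^c)`, for EVERY tuple `w` of integers `w_i ≥ exp ((log N)^b)` such that
`gcd(w_i, F_i(m_i)) ≥ w_j^ρ` for all `i`, `j`, there are no integers `n_i` with `|n_i| = w_i` such that `(n_1, …, n_k)` is
exceptional, that is for all points `z_i` of the upper half-plane with `j(z_i) = ± w_i` there is no relation of degree at
most `δ` over a number field of degree at most `δ` between `2 π i, x_1, …, x_q` and the numbers `z_i`, `j'(z_i)`,
`j''(z_i)` which is not trivial; `ρ < 1` depends only on `k`, `q`, `δ`, and the bound `N ≥ N₀` does not depend on `x`. The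
tuples `w` include all tuples of large divisors `w_i` of the `F_i(m_i)` of comparable size and their multiples by small
integers.

Proof. But for few exceptional `m_i ≤ N`, the number of `m_i` with `g ∣ F_i(m_i)` is at most `N τ_J(g) / g` up to a factor
`exp ((log N)^s)`, `J = (log N)^a`, `a < s < b`, for all `g`: write `m_i = k u` with `u` squarefree and composed of primes
larger than `N^(1/J)`, `k ≤ exp (4 (log N)^a)`. If `w` is an exceptional tuple with `w_i ≤ X`, then the `g_i = gcd(w_i,
F_i(m_i))` are divisors of the `w_i` of size `≥ (X/2)^ρ`; there are few such tuples of divisors, and the inequality `τ_J^q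
≤ τ_K` for `K ≥ J^q` with Hölder's inequality for tuples bounds the sum of `∏ τ_J(g_i) / g_i`. The file
`MultiplicativeValues` of the starting library treats the tuples `w = (F_i(m_i))` only, with `N^k / (log N)^U` exceptions.
-/

set_option autoImplicit false

namespace Pool.Agent.Results.MP_ede373_nt.CommonFactors

open Pool.Agent.Results.MP_ede373_nt.GrowingDegreeTuples (Exceptional)
open Pool.Agent.N733.TG (LM lm_totient lm_sigma)
open Pool.Agent.U536.CF (CommonT avoidT commonT_of_dvd exists_rho)
open Pool.Agent.Results.MP_ede373_nt.MultiplicativeValues (W count)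

/-- **The modular Schanuel conjecture with derivatives at integers with large common factors with the values of multiplicative
functions.** Let `q` and `δ` be natural numbers and `x_1, …, x_q` any complex numbers. Let the `F_i` be multiplicative and
positive, of at most polynomial growth, with `F_i p ≤ M p` at the large primes, and injective there. Let `b < 1` and `0 ≤
c < 2 b - 1`. For all large `N`, for all tuples `m` in `[1, N]^k` but `N^k exp (-(log N)^c)`, for EVERY tuple `w` of
integers `w_i ≥ exp ((log N)^b)` with `gcd(w_i, F_i(m_i)) ≥ w_j^ρ` for all `i`, `j`, there are no integers `n_i` with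
`|n_i| = w_i` such that `(n_1, …, n_k)` is exceptional, that is for all points `z_i` of the upper half-plane with `j(z_i)
= ± w_i` there is no relation of degree at most `δ` over a number field of degree at most `δ` between `2 π i, x_1, …, x_q`
and the numbers `z_i`, `j'(z_i)`, `j''(z_i)` which is not trivial; `ρ < 1` depends only on `k`, `q`, `δ`, and the bound `N
≥ N₀` does not depend on `x`. Tuples of divisors `w_i ≥ exp ((log N)^b)` of the `F_i(m_i)` with `w_j^ρ ≤ w_i` for all `i`,
`j` are such tuples. Euler's function and the sum of the divisors are examples of the `F_i`. -/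
theorem result :
    (∀ k : ℕ, 1 ≤ k → ∀ q δ : ℕ, ∃ ρ : ℝ, 0 < ρ ∧ ρ < 1 ∧ ∀ F : Fin k → ℕ → ℕ, (∀ i, LM (F i)) →
      ∀ b c : ℝ, b < 1 → 0 ≤ c → c < 2 * b - 1 → ∃ N₀ : ℕ, ∀ N : ℕ, N₀ ≤ N → ∀ x : Fin q → ℂ,
        ({m : Fin k → ℕ | (∀ i, 1 ≤ m i ∧ m i ≤ N) ∧ ∃ w : Fin k → ℕ, CommonT F b ρ N m w ∧
          ∃ n : Fin k → ℤ, (∀ i, |n i| = w i) ∧ Exceptional δ x n}.ncard : ℝ) ≤
          (N : ℝ) ^ k * Real.exp (-(Real.log N ^ c))) ∧
    (LM Nat.totient ∧ LM (fun m => ∑ d ∈ m.divisors, d)) ∧
    ∀ (k : ℕ) (F : Fin k → ℕ → ℕ) (b ρ : ℝ) (N : ℕ) (m w : Fin k → ℕ), (∀ i, Real.exp (Real.log N ^ b) ≤ (w i : ℝ)) →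
      (∀ i, w i ∣ F i (m i)) → (∀ i j, (w j : ℝ) ^ ρ ≤ (w i : ℝ)) → CommonT F b ρ N m w := by
  refine ⟨?_, ⟨lm_totient, lm_sigma⟩, fun k F b ρ N m w h1 h2 h3 => commonT_of_dvd h1 h2 h3⟩
  intro k hk q δ
  obtain ⟨C, hC⟩ := count k q
  have hc : 0 < 1 / ((δ : ℝ) + 2) ^ C := by positivity
  obtain ⟨ρ, hρ0, hρ1, hρ⟩ := exists_rho hk hc
  refine ⟨ρ, hρ0, hρ1, fun F hF b c₁ hb hc₁ hcb => ?_⟩
  obtain ⟨N₀, hN₀⟩ := avoidT hk hF hρ0 hρ1.le hρ C hb hc₁ hcb
  refine ⟨N₀, fun N hN x => ?_⟩
  refine le_trans ?_ (hN₀ N hN (W k δ x) (fun X hX => le_trans ?_ (hC δ x X hX)))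
  · have hfin : {m : Fin k → ℕ | (∀ i, 1 ≤ m i ∧ m i ≤ N) ∧ ∃ w ∈ W k δ x, CommonT F b ρ N m w}.Finite := by
      apply (Fintype.piFinset fun _ : Fin k => Finset.Icc 1 N).finite_toSet.subset
      intro m hm
      rw [Finset.mem_coe, Fintype.mem_piFinset]
      exact fun i => Finset.mem_Icc.2 (hm.1 i)
    refine Nat.cast_le.2 (Set.ncard_le_ncard ?_ hfin)
    rintro m ⟨h3, w, hw, n, h4, h5⟩
    refine ⟨h3, w, ⟨n, h4, fun i h0 => ?_, h5⟩, hw⟩
    have h6 := h4 i
    rw [h0, abs_zero] at h6
    have h7 : w i = 0 := by exact_mod_cast h6.symm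
    have h8 := (hw i).1
    rw [h7, Nat.cast_zero] at h8
    exact absurd h8 (not_le.2 (Real.exp_pos _))
  · have hfin : {v : Fin k → ℕ | v ∈ W k δ x ∧ ∀ i, 1 ≤ v i ∧ v i ≤ X}.Finite := by
      apply (Fintype.piFinset fun _ : Fin k => Finset.Icc 1 X).finite_toSet.subset
      intro m hm
      rw [Finset.mem_coe, Fintype.mem_piFinset]
      exact fun i => Finset.mem_Icc.2 (hm.2 i)
    refine Nat.cast_le.2 (Set.ncard_le_ncard ?_ hfin)
    rintro v ⟨h1, h2⟩
    exact ⟨h2, fun i => ⟨le_trans (by norm_num) (h1 i).1, (h1 i).2⟩⟩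

end Pool.Agent.Results.MP_ede373_nt.CommonFactors
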