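import Pool.Agent.U449.BV.VU
import Pool.Agent.Results.MP_ede373_nt.GrowingDegreeTuples

/-!
# The modular Schanuel conjecture with derivatives near the coordinates of polynomials on arbitrary sets

For all `k ≥ 1`, `q` there is `C` such that the following holds for all `δ'`, `κ ≥ 0`, `k - 1 / (δ' + 2) ^ C + k κ < δ ≤ k`. Let `p` be a
large prime, `f(x, y)` ANY polynomial of degree at most `D` over the field of `p ^ k` elements with a monomial which contains both
variables (for example `f = x y`), let `A`, `B` be ARBITRARY subsets of this field with at least `p ^ δ` elements, and `g`, `h`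
ARBITRARY functions. For all the pairs `(a, b)` in `A × B`, apart from a proportion of at most `p ^ (-ρ)`, and for ALL tuples `n` of
nonzero integers at a distance of at most `p ^ κ` from the tuple of the least residues of the `k` coordinates of
`f(a, b) + g(a) + h(b)`: for **all** points `z_1, …, z_k` of the upper half-plane with `j(z_i) = n_i` there is no nontrivial relation of
degree at most `δ'`, whatever the height of its coefficients, between `2 π i, w_1, …, w_q` and the `3 k` numbers `z_i`, `j'(z_i)`,
`j''(z_i)`, over any number field of degree at most `δ'`. Here `w_1, …, w_q` are arbitrary complex numbers, and how large `p` has to be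
does not depend on them. More generally, this holds for the values `F(a, b)` of all vector functions of two variables with few
coincidences (`RareV`), on arbitrary finite sets.

Since the sets and the functions `g` and `h` are arbitrary, the tuples have no arithmetic structure, and a tuple may be
taken by very many pairs. So the number of the exceptions (starting library) does not give the result directly. Proof: the
inequality of Cauchy and Schwarz; for most pairs `a, a'` the difference `F(a, b) - F(a', b)` is small for few `b`
(`Pool.Agent.U449.BV`).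
-/

set_option autoImplicit false

namespace Pool.Agent.Results.MP_ede373_nt.MixedPolynomials

open Finset
open Pool.Agent.U449.BV (RareV OnProductsU on_products_int_saving coordinates)
open Pool.Agent.Results.MP_ede373_nt.GrowingDegreeTuples (Exceptional)

/-- ALL tuples `n` of nonzero integers with `|n_i - x_i| ≤ W` for all `i` are not exceptional. -/
def Near {q : ℕ} (k δ : ℕ) (w : Fin q → ℂ) (W : ℝ) (x : Fin k → ℝ) : Prop :=
  ∀ n : Fin k → ℤ, (∀ i, n i ≠ 0) → (∀ i, |(n i : ℝ) - x i| ≤ W) → ¬ Exceptional δ w n

/-- **Theorem.** For all `k ≥ 1` and `q` there is `C` such that for all `δ'` and `κ ≥ 0` the property `Near`, with windows of length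
`X ^ κ`, holds, uniformly in `w_1, …, w_q ∈ ℂ`, for almost all values of vector functions of two variables with few coincidences, on
arbitrary finite sets of at least `X ^ δ` elements, `k - 1 / (δ' + 2) ^ C + k κ < δ ≤ k` (`OnProductsU`).
The tuples of the least residues modulo `p` of the coordinates (with respect to a basis over the field of `p` elements) of
`f(a, b) + g(a) + h(b)` in a field of `p ^ k` elements are such a function, with `X = p`, for all polynomials `f` over this
field with a monomial which contains both variables, arbitrary functions `g` and `h`, and arbitrary finite subsets. -/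
theorem result :
    (∀ k q : ℕ, 1 ≤ k → ∃ C : ℕ, ∀ (δ' : ℕ) (κ : ℝ), 0 ≤ κ →
      OnProductsU k ((k : ℝ) - 1 / ((δ' : ℝ) + 2) ^ C + k * κ) κ (fun w : Fin q → ℂ => Near k δ' w)) ∧
    ∀ (p : ℕ) [Fact p.Prime] (k : ℕ) (K : Type) [Field K] [Algebra (ZMod p) K] (e : Module.Basis (Fin k) (ZMod p) K)
      (d : ℕ) (f : MvPolynomial (Fin 2) K), f.totalDegree ≤ d → (∃ m ∈ f.support, m 0 ≠ 0 ∧ m 1 ≠ 0) →
      ∀ (g h : K → K) (A B : Finset K),
        RareV d A B (fun a b i => (((e.repr (MvPolynomial.eval ![a, b] f + g a + h b) i).val : ℕ) : ℝ)) := by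
  refine ⟨fun k q hk => ?_, coordinates⟩
  obtain ⟨C, hC⟩ := GrowingDegreeTuples.result k q
  refine ⟨C, fun δ κ hκ => ?_⟩
  have hck : 1 / ((δ : ℝ) + 2) ^ C ≤ (k : ℝ) := by
    have h1 : (1 : ℝ) ≤ ((δ : ℝ) + 2) ^ C := one_le_pow₀ (by linarith [(Nat.cast_nonneg δ : (0 : ℝ) ≤ δ)])
    have h2 : (1 : ℝ) ≤ k := by exact_mod_cast hk
    exact (div_le_one_of_le₀ h1 (by positivity)).trans h2
  have h3 := on_products_int_saving (k := k) (Ω := Fin q → ℂ)
    (fun w => {n : Fin k → ℤ | (∀ i, n i ≠ 0) ∧ Exceptional δ w n}) (c := 1 / ((δ : ℝ) + 2) ^ C) (C := C) hκ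
    (fun w X hX => ?_)
  · rw [min_eq_left hck] at h3
    exact h3.mono id (fun w W x _ h' n hn0 hn hE => h' n hn ⟨hn0, hE⟩)
  · classical
    refine le_trans (Nat.cast_le.2 ?_) (hC δ w X hX)
    rw [← Set.ncard_coe_finset]
    refine Set.ncard_le_ncard ?_ (Finset.finite_toSet _)
    rintro n ⟨h1, h2⟩
    rw [Finset.mem_coe, Finset.mem_filter, Fintype.mem_piFinset]
    exact ⟨fun i => Finset.mem_Icc.2 (abs_le.1 (h1 i)), h2⟩

end Pool.Agent.Results.MP_ede373_nt.MixedPolynomials
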