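import Pool.Agent.U405.RS.G5
import Pool.Agent.Results.MP_ede373_nt.MultiplicativeValues

/-!
# The modular Schanuel conjecture with derivatives over values of multiplicative functions in thin sets

Let `F_1, …, F_k` be positive multiplicative functions of at most polynomial growth which for each `a ≥ 1` are injective at the
powers `p ^ a` of the large primes and at most `M p ^ a` there; for example Euler's function or the sum of the divisors. We prove: for all `δ` and `q`, for almost all `m` in products of thin sets, for **all**
points `z_1, …, z_k` of the upper half-plane with `j(z_i) = ± F_i(m_i)` (all choices of the signs) there is no nontrivial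
relation of degree at most `δ`, whatever the height of its coefficients, between `2 π i, w_1, …, w_q` and the `3 k` numbers
`z_i`, `j'(z_i)`, `j''(z_i)`, over any number field of degree at most `δ`. Here `w_1, …, w_q` are arbitrary complex numbers
and the result is uniform in them.

The starting theorem `MultiplicativeValues` of this problem treats the average over all tuples `m ∈ [1, N]^k`. Here each `m_i` runs
over a thin set: the shifted primes `p + a_i`, `p ≤ x`, for an arbitrary integer `a_i`, or an interval `(u, u + h]` with
`x^τ ≤ h ≤ x`, where `u ≤ x` and `1 - c / k < τ ≤ 1`; both kinds can be mixed. The tuples of values `(F_1(m_1), …, F_k(m_k))` are taken with large and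
uneven multiplicities, so that the size of the exceptional set says nothing about them.

Proof. Own tool `Pool.Agent.U405.RS`. A thin set `S` has at most `B g^ω(n) |S| / n` multiples of `n` for every `n ≤ x^δ` (for the
shifted primes by the Brun-Titchmarsh inequality of the library). Write `m_i = n_i w_i` with `n_i` composed of the primes
`≤ z = x^(1 / J)`, `J` a small multiple of `log log x`. By Rankin's method one has `n_i ≤ x^η` for most `m_i` in `S_i`; and `w_i` has at
most `J` prime factors and exponents `≤ J`, so that it is determined by `F_i(w_i)` up to `x^o(1)` possibilities. A slab of the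
exceptional set is then covered by the fibres over one coordinate, and the saving `X^c` of the exceptional set is larger than the loss
`x^(k (1 - τ))` from the short intervals. The bound for the exceptional tuples of integers is the starting theorem `GrowingDegreeTuples`.
-/

set_option autoImplicit false

namespace Pool.Agent.Results.MP_ede373_nt.ThinTuples

open Pool.Agent.U405.RS
open Pool.Agent.Results.MP_ede373_nt.GrowingDegreeTuples (Exceptional)
open Pool.Agent.Results.MP_ede373_nt.MultiplicativeValues (W count)

/-- **Modular Schanuel with derivatives over thin sets.** For all `k ≥ 1`, `q`, `δ` there is `c > 0` such that for all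
`F_1, …, F_k` in the class `PM`, all `U` and, uniformly, all `w ∈ ℂ^q`, in the sense of `ThinAll c F U`
(with a saving of `(log x)^U`, uniformly in the parameter, for almost all `m` in all products `S_1 × ⋯ × S_k` of sets of shifted
primes `p + a_i`, `p ≤ x`, and intervals `(u, u + h]`, `u ≤ x`, `x^τ ≤ h ≤ x`, whenever `0 < τ ≤ 1`, `k τ > k - c`)
all `F_i(m_i)` are at least `2` and there are no integers `n_i` with `|n_i| = F_i(m_i)` such that
`(n_1, …, n_k)` is exceptional, that is for all points `z_i` of the upper half-plane with `j(z_i) = ± F_i(m_i)` there is no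
relation of degree at most `δ` over a number field of degree at most `δ` between `2 π i, w_1, …, w_q` and the numbers `z_i`,
`j'(z_i)`, `j''(z_i)` which is not trivial. Euler's function, the sum of the divisors and the identity are in the class. -/
theorem result :
    (∀ k : ℕ, 1 ≤ k → ∀ q δ : ℕ, ∃ c : ℝ, 0 < c ∧ ∀ F : Fin k → ℕ → ℕ, (∀ i, PM (F i)) → ∀ U : ℕ,
      ThinAll c F U (fun (w : Fin q → ℂ) (v : Fin k → ℕ) => (∀ i, 2 ≤ v i) ∧
        ∀ n : Fin k → ℤ, (∀ i, |n i| = v i) → ¬ Exceptional δ w n)) ∧
    (PM Nat.totient ∧ PM (fun m => ∑ d ∈ m.divisors, d) ∧ PM (fun m => m)) := by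
  refine ⟨fun k hk q δ => ?_, examplesT⟩
  obtain ⟨C, hC⟩ := count k q
  have hc : 0 < 1 / ((δ : ℝ) + 2) ^ C := by positivity
  refine ⟨_, hc, fun F hF U => thinAll_two hk hF hc (C : ℝ)
    (fun (w : Fin q → ℂ) (v : Fin k → ℕ) => ∀ n : Fin k → ℤ, (∀ i, |n i| = v i) → ¬ Exceptional δ w n)
    (fun w X hX => ?_) U⟩
  refine le_trans (Nat.cast_le.2 ?_) (hC δ w X hX)
  have hfin : {v : Fin k → ℕ | v ∈ W k δ w ∧ ∀ i, 1 ≤ v i ∧ v i ≤ X}.Finite := by
    apply (Set.Finite.pi' fun _ : Fin k => Set.finite_Icc 1 X).subset
    intro v hv i
    exact hv.2 i
  refine Set.ncard_le_ncard ?_ hfin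
  rintro v ⟨h1, h2⟩
  push Not at h2
  obtain ⟨n, h3, h4⟩ := h2
  refine ⟨⟨n, h3, fun i h0 => ?_, h4⟩, fun i => ⟨by have := (h1 i).1; omega, (h1 i).2⟩⟩
  have h5 := h3 i
  rw [h0, abs_zero] at h5
  have h6 := (h1 i).1
  have h7 : v i = 0 := by exact_mod_cast h5.symm
  omega

end Pool.Agent.Results.MP_ede373_nt.ThinTuples
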